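import Mathlib

/-!
# Translation of the speeds can lower the loneliness gap from `1 / 2` to `1 / (n + 1)`

For all `n ≥ 2` and all `a ≥ 1` the set `V = {a, 3 a, 5 a, …, (2 n - 1) a}` of `n` speeds has loneliness
gap `1 / 2`, the largest possible value, and `a + V = {2 a, 4 a, …, 2 n a}` has loneliness gap
`1 / (n + 1)`. So the inequality `κ(a + V) ≥ κ(V)` of the second question fails for every number
`n ≥ 2` of speeds and for every translation `a ≥ 1`.
-/

set_option autoImplicit false

namespace Pool.Agent.Results.MP_64d5df_nt.TranslationDropsGap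

/-- The loneliness gap of a finite set of speeds: the supremum over all real `t` of the minimum over
`v ∈ V` of the distance of `t v` to the nearest integer. -/
noncomputable def κ (V : Finset ℕ) : ℝ :=
  ⨆ t : ℝ, ⨅ v : V, |t * (v : ℕ) - round (t * (v : ℕ))|

/-- The translate `a + V`. -/
def translate (a : ℕ) (V : Finset ℕ) : Finset ℕ := V.image (fun v => a + v)

/-- `V` is a set of `n` distinct positive integers. -/
def IsSpeeds (n : ℕ) (V : Finset ℕ) : Prop := V.card = n ∧ ∀ v ∈ V, 0 < v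

theorem bdd (V : Finset ℕ) (t : ℝ) :
    BddBelow (Set.range fun v : V => |t * (v : ℕ) - round (t * (v : ℕ))|) :=
  ⟨0, by rintro _ ⟨v, rfl⟩; exact abs_nonneg _⟩

theorem inf_le {V : Finset ℕ} (t : ℝ) {v : ℕ} (hv : v ∈ V) :
    (⨅ v : V, |t * (v : ℕ) - round (t * (v : ℕ))|) ≤ |t * v - round (t * v)| :=
  ciInf_le (bdd V t) ⟨v, hv⟩

theorem bddA {V : Finset ℕ} (hV : V.Nonempty) :
    BddAbove (Set.range fun t : ℝ => ⨅ v : V, |t * (v : ℕ) - round (t * (v : ℕ))|) := by
  obtain ⟨v, hv⟩ := hV
  refine ⟨1 / 2, ?_⟩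
  rintro _ ⟨t, rfl⟩
  exact (inf_le t hv).trans (abs_sub_round _)

theorem le_κ {V : Finset ℕ} (hV : V.Nonempty) {c : ℝ} (t : ℝ)
    (h : ∀ v ∈ V, c ≤ |t * v - round (t * v)|) : c ≤ κ V := by
  refine le_trans ?_ (le_ciSup (bddA hV) t)
  have : Nonempty V := hV.to_subtype
  exact le_ciInf fun v => h v v.2

theorem κ_le {V : Finset ℕ} {c : ℝ} (h : ∀ t : ℝ, ∃ v ∈ V, |t * v - round (t * v)| ≤ c) :
    κ V ≤ c := by
  refine ciSup_le fun t => ?_
  obtain ⟨v, hv, h'⟩ := h t
  exact (inf_le t hv).trans h'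

theorem le_nd {c y : ℝ} (n : ℤ) (h1 : c ≤ y - n) (h2 : y - n ≤ 1 - c) : c ≤ |y - round y| := by
  rcases le_or_gt (round y) n with h | h
  · have : ((round y : ℤ) : ℝ) ≤ n := by exact_mod_cast h
    exact le_trans (by linarith) (le_abs_self _)
  · have : (n : ℝ) + 1 ≤ ((round y : ℤ) : ℝ) := by exact_mod_cast h
    exact le_trans (by linarith) (neg_le_abs _)

/-- The odd multiples `a, 3 a, …, (2 n - 1) a`. -/
def odds (n a : ℕ) : Finset ℕ := (Finset.range n).image (fun w => a * (2 * w + 1))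

theorem translate_odds (n a : ℕ) :
    translate a (odds n a) = (Finset.range n).image (fun w => 2 * a * (w + 1)) := by
  unfold translate odds
  rw [Finset.image_image]
  refine Finset.image_congr fun w _ => ?_
  simp only [Function.comp]
  ring

/-- **Theorem.** For every `n ≥ 2` and every `a ≥ 1` there is a set `V` of `n` speeds with
`κ(V) = 1 / 2` and `κ(a + V) = 1 / (n + 1)`; in particular `κ(a + V) < κ(V)`. -/
theorem result : ∀ n a : ℕ, 2 ≤ n → 1 ≤ a → ∃ V : Finset ℕ, IsSpeeds n V ∧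
    κ V = 1 / 2 ∧ κ (translate a V) = 1 / ((n : ℝ) + 1) ∧ κ (translate a V) < κ V := by
  intro n a hn ha
  have haR : (0 : ℝ) < a := by exact_mod_cast (show 0 < a by omega)
  have hnR : (2 : ℝ) ≤ n := by exact_mod_cast hn
  have hspeeds : IsSpeeds n (odds n a) := by
    refine ⟨?_, fun v hv => ?_⟩
    · unfold odds
      rw [Finset.card_image_of_injective, Finset.card_range]
      intro x y hxy
      have h3 : 2 * x + 1 = 2 * y + 1 := Nat.eq_of_mul_eq_mul_left (by omega) hxy
      omega
    · unfold odds at hv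
      obtain ⟨w, _, rfl⟩ := Finset.mem_image.1 hv
      exact Nat.mul_pos (by omega) (by omega)
  have hne : (odds n a).Nonempty := by
    rw [← Finset.card_pos, hspeeds.1]; omega
  have h1 : κ (odds n a) = 1 / 2 := by
    apply le_antisymm
    · obtain ⟨v, hv⟩ := hne
      exact κ_le fun t => ⟨v, hv, abs_sub_round _⟩
    · refine le_κ hne (1 / (2 * a)) fun v hv => ?_
      unfold odds at hv
      obtain ⟨w, _, rfl⟩ := Finset.mem_image.1 hv
      have e : 1 / (2 * (a : ℝ)) * ((a * (2 * w + 1) : ℕ) : ℝ) = ((w : ℤ) : ℝ) + 1 / 2 := by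
        push_cast
        field_simp
      rw [e]
      refine le_nd (w : ℤ) ?_ ?_ <;> linarith
  have h2 : κ (translate a (odds n a)) = 1 / ((n : ℝ) + 1) := by
    rw [translate_odds]
    apply le_antisymm
    · refine κ_le fun t => ?_
      obtain ⟨k, hk0, hkn, hk⟩ := Real.exists_nat_abs_mul_sub_round_le (2 * a * t)
        (show 0 < n by omega)
      refine ⟨2 * a * k, ?_, ?_⟩
      · refine Finset.mem_image.2 ⟨k - 1, Finset.mem_range.2 (by omega), ?_⟩
        congr 1
        omega
      · have e : t * ((2 * a * k : ℕ) : ℝ) = k * (2 * a * t) := by push_cast; ring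
        rw [e]
        exact hk
    · refine le_κ ((Finset.nonempty_range_iff.2 (by omega)).image _)
        (1 / (2 * a * ((n : ℝ) + 1))) fun v hv => ?_
      obtain ⟨w, hw, rfl⟩ := Finset.mem_image.1 hv
      have hw' : (w : ℝ) + 1 ≤ n := by exact_mod_cast (Finset.mem_range.1 hw)
      have hn1 : (0 : ℝ) < (n : ℝ) + 1 := by linarith
      have e : 1 / (2 * (a : ℝ) * ((n : ℝ) + 1)) * ((2 * a * (w + 1) : ℕ) : ℝ) =
          ((w : ℝ) + 1) / ((n : ℝ) + 1) := by
        push_cast
        field_simp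
      rw [e]
      refine le_nd 0 ?_ ?_
      · rw [Int.cast_zero, sub_zero]
        exact div_le_div_of_nonneg_right (by linarith [(Nat.cast_nonneg w : (0 : ℝ) ≤ w)]) hn1.le
      · rw [Int.cast_zero, sub_zero, div_le_iff₀ hn1]
        have : (1 - 1 / ((n : ℝ) + 1)) * ((n : ℝ) + 1) = n := by field_simp; ring
        rw [this]
        exact hw'
  refine ⟨odds n a, hspeeds, h1, h2, ?_⟩
  rw [h1, h2]
  exact one_div_lt_one_div_of_lt (by norm_num) (by linarith)

end Pool.Agent.Results.MP_64d5df_nt.TranslationDropsGap
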